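import Pool.Agent.H59.L.T374d34.N232.KM.Res2
import Pool.Agent.H59.L.S8.Z864.RG.LDK
import Pool.Agent.H59.L.S8.R834.OR.E2
import Pool.Agent.H59.L.T374d34.N483.KM.Stm

/-!
# Residual variance and the maximal fibre (KM19), from isotropic position and fourth moments
-/

set_option autoImplicit false

namespace Pool.Agent.N232.KM

open MeasureTheory Set Filter Topology
open scoped ENNReal InnerProductSpace
open Pool.Agent.W695.KH (Eu)
open Pool.Agent.Y506.RG (EW VW ILK)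
open Pool.Agent.R754.KG (E)

/-! ### coordinates -/

/-- the last coordinates -/
noncomputable def tz {d : ℕ} (z : Eu (Fin (d + 1))) : Eu (Fin d) := WithLp.toLp 2 fun i => z i.succ

theorem tz_meas {d : ℕ} : Measurable fun z : Eu (Fin (d + 1)) => (tz z, z 0) := by
  refine Continuous.measurable ?_
  unfold tz
  refine Continuous.prodMk ?_ (by fun_prop)
  refine (PiLp.continuous_toLp 2 _).comp (continuous_pi fun i => ?_)
  fun_prop

/-- Tonelli's theorem in these coordinates -/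
theorem fub {d : ℕ} (F : Eu (Fin d) → ℝ → ℝ≥0∞)
    (hF : Measurable fun p : Eu (Fin d) × ℝ => F p.1 p.2) :
    ∫⁻ z : Eu (Fin (d + 1)), F (tz z) (z 0) = ∫⁻ t, ∫⁻ v, F t v := by
  have h1 : MeasurePreserving (fun z : Eu (Fin (d + 1)) =>
      (MeasurableEquiv.piFinSuccAbove (fun _ => ℝ) 0) (WithLp.ofLp z)) :=
    (volume_preserving_piFinSuccAbove (fun _ => ℝ) 0).comp (PiLp.volume_preserving_ofLp _)
  have hm : Measurable fun p : ℝ × (Fin d → ℝ) => F (WithLp.toLp 2 p.2) p.1 := by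
    refine hF.comp (Measurable.prodMk ?_ measurable_fst)
    exact ((PiLp.continuous_toLp 2 _).comp continuous_snd).measurable
  have h2 := h1.lintegral_comp hm
  have h3 := lintegral_prod_symm' (μ := (volume : Measure ℝ)) (ν := (volume : Measure (Fin d → ℝ)))
    (fun p : ℝ × (Fin d → ℝ) => F (WithLp.toLp 2 p.2) p.1) hm
  have h4 : ∫⁻ t : Eu (Fin d), ∫⁻ v, F t v = ∫⁻ y : Fin d → ℝ, ∫⁻ v, F (WithLp.toLp 2 y) v :=
    ((PiLp.volume_preserving_toLp (Fin d)).lintegral_comp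
      (f := fun t => ∫⁻ v, F t v) hF.lintegral_prod_right').symm
  rw [h4]
  exact h2.trans h3

/-- log-concave densities of finite mass are finite -/
theorem fin_lc {n : ℕ} (G : Eu (Fin n) → ℝ≥0∞) (hG : Measurable G)
    (hl : ∀ x y, ∀ t : ℝ, 0 < t → t < 1 → G x ^ (1 - t) * G y ^ t ≤ G ((1 - t) • x + t • y))
    (h0 : ∫⁻ z, G z ≠ 0) (h1 : ∫⁻ z, G z ≠ ⊤) : ∀ z, G z ≠ ⊤ := by
  intro z hz
  have e1 : volume {x | G x = ⊤} = 0 := measure_eq_top_of_lintegral_ne_top hG.aemeasurable h1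
  have e2 : volume ((fun x => (1 / 2 : ℝ) • z + x) ⁻¹' {x | G x = ⊤}) = 0 := by
    rw [measure_preimage_add]; exact e1
  have e3 : volume ((fun x => (1 / 2 : ℝ) • x) ⁻¹' ((fun x => (1 / 2 : ℝ) • z + x) ⁻¹'
      {x | G x = ⊤})) = 0 := by
    rw [Measure.addHaar_preimage_smul _ (by norm_num), e2, mul_zero]
  refine h0 ((lintegral_eq_zero_iff hG).2 ?_)
  have e4 : ∀ᵐ x, ¬ (G ((1 / 2 : ℝ) • z + (1 / 2 : ℝ) • x) = ⊤) := by
    rw [ae_iff]
    simpa using e3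
  filter_upwards [e4] with x hx
  by_contra hne
  refine hx (top_le_iff.1 ?_)
  have h := hl z x (1 / 2) (by norm_num) (by norm_num)
  have e5 : (1 - 1 / 2 : ℝ) = 1 / 2 := by norm_num
  rw [e5, hz, ENNReal.top_rpow_of_pos (by norm_num), ENNReal.top_mul] at h
  · exact h
  · intro h6
    rw [ENNReal.rpow_eq_zero_iff] at h6
    rcases h6 with h6 | h6
    · exact hne h6.1
    · norm_num at h6

/-- scaling of the integral on the line -/
theorem scl (f : ℝ → ℝ≥0∞) (hf : Measurable f) (ρ : ℝ) (hρ : 0 < ρ) :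
    ∫⁻ s, f (s / ρ) = ENNReal.ofReal ρ * ∫⁻ s, f s := by
  have h := Real.map_volume_mul_left (a := ρ⁻¹) (inv_pos.2 hρ).ne'
  have h2 : ∫⁻ s, f s ∂(Measure.map (ρ⁻¹ * ·) (volume : Measure ℝ)) = ∫⁻ s, f (ρ⁻¹ * s) :=
    lintegral_map hf (by fun_prop)
  rw [h, lintegral_smul_measure, inv_inv, abs_of_pos hρ, smul_eq_mul] at h2
  rw [h2]
  refine lintegral_congr fun s => ?_
  rw [div_eq_inv_mul]

/-- isotropic position and fourth moments for log-concave weights -/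
structure IM (K : ℝ) : Prop where
  iso : ∀ (n : ℕ) (w : Eu (Fin n) → ℝ), (∀ x, 0 ≤ w x) → Measurable w →
    Integrable (fun x => (1 + ‖x‖ ^ 2) * w x) → 0 < ∫ x, w x →
    ∃ A : Eu (Fin n) ≃L[ℝ] Eu (Fin n), ∀ θ : Eu (Fin n), VW w (fun x => ⟪A x, θ⟫_ℝ) = ‖θ‖ ^ 2
  m4 : ∀ (n : ℕ) (w : Eu (Fin n) → ℝ), (∀ x, 0 ≤ w x) → Measurable w →
    Integrable (fun x => (1 + ‖x‖ ^ 2) * w x) → 0 < ∫ x, w x →
    (∀ x y, ∀ t : ℝ, 0 < t → t < 1 → w x ^ (1 - t) * w y ^ t ≤ w ((1 - t) • x + t • y)) →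
    ∀ θ : Eu (Fin n), Integrable (fun x => (⟪x, θ⟫_ℝ - EW w fun x => ⟪x, θ⟫_ℝ) ^ 4 * w x) ∧
    EW w (fun x => (⟪x, θ⟫_ℝ - EW w fun x => ⟪x, θ⟫_ℝ) ^ 4) ≤ K * (VW w fun x => ⟪x, θ⟫_ℝ) ^ 2

theorem res_of (K : ℝ) (hK : 1 ≤ K) (H : IM K) : Pool.Agent.N483.KM.S_RES := by
  intro d
  obtain ⟨c0, C1, r0, hc0, hC1, hr0, hldk⟩ := Pool.Agent.Z864.RG.ldk K (d + 1) hK
  obtain ⟨r, hr⟩ : ∃ r : ℝ, r = Real.sqrt (2 * ((d + 1 : ℕ) : ℝ) + 2) := ⟨_, rfl⟩
  have hr0 : 0 < r := by rw [hr]; exact Real.sqrt_pos.2 (by positivity)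
  obtain ⟨V, hV⟩ : ∃ V : ℝ, V =
    (volume (Metric.closedBall (0 : Eu (Fin (d + 1))) (2 * r))).toReal := ⟨_, rfl⟩
  have hV1 : volume (Metric.closedBall (0 : Eu (Fin (d + 1))) (2 * r)) = ENNReal.ofReal V := by
    rw [hV, ENNReal.ofReal_toReal measure_closedBall_lt_top.ne]
  have hV0 : 0 < V := by
    rw [hV]
    exact ENNReal.toReal_pos (Metric.measure_closedBall_pos volume _ (by positivity)).ne'
      measure_closedBall_lt_top.ne
  obtain ⟨C2, hC2⟩ : ∃ C2 : ℝ, C2 = 2 * C1 * V / r := ⟨_, rfl⟩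
  have hC20 : 0 < C2 := by rw [hC2]; positivity
  refine ⟨32 * C2 ^ 2, by positivity, ?_⟩
  rintro g ts hgm hglc ⟨B, hB⟩ h0 h1 h2 hmax a
  -- the density on the whole space
  obtain ⟨G, hG⟩ : ∃ G : Eu (Fin (d + 1)) → ℝ≥0∞, G = fun z => g (tz z) (z 0) := ⟨_, rfl⟩
  have hGm : Measurable G := by rw [hG]; exact hgm.comp tz_meas
  have hGi : ∫⁻ z, G z = ∫⁻ t, ∫⁻ v, g t v := by rw [hG]; exact fub g hgm
  have hGl : ∀ x y, ∀ t : ℝ, 0 < t → t < 1 →
      G x ^ (1 - t) * G y ^ t ≤ G ((1 - t) • x + t • y) := by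
    intro x y t ht1 ht2
    rw [hG]
    exact hglc (tz x) (tz y) (x 0) (y 0) t ht1 ht2
  have hGf : ∀ z, G z ≠ ⊤ := fin_lc G hGm hGl (by rw [hGi]; exact h0) (by rw [hGi]; exact h1)
  obtain ⟨w, hw⟩ : ∃ w : Eu (Fin (d + 1)) → ℝ, w = fun z => (G z).toReal := ⟨_, rfl⟩
  have hwG : ∀ z, ENNReal.ofReal (w z) = G z := fun z => by
    rw [hw]; exact ENNReal.ofReal_toReal (hGf z)
  have hw0 : ∀ z, 0 ≤ w z := fun z => by rw [hw]; exact ENNReal.toReal_nonneg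
  have hwm : Measurable w := by rw [hw]; exact hGm.ennreal_toReal
  have hwl : ∀ x y, ∀ t : ℝ, 0 < t → t < 1 →
      w x ^ (1 - t) * w y ^ t ≤ w ((1 - t) • x + t • y) := by
    intro x y t ht1 ht2
    have h3 := ENNReal.toReal_mono (hGf _) (hGl x y t ht1 ht2)
    rw [ENNReal.toReal_mul, ← ENNReal.toReal_rpow, ← ENNReal.toReal_rpow] at h3
    rw [hw]
    exact h3
  have iw : Integrable w := by
    rw [hw]
    exact integrable_toReal_of_lintegral_ne_top hGm.aemeasurable (by rw [hGi]; exact h1)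
  obtain ⟨M, hM⟩ : ∃ M : ℝ, M = ∫ z, w z := ⟨_, rfl⟩
  have hM1 : ∫⁻ z, G z = ENNReal.ofReal M := by
    rw [hM, ofReal_integral_eq_lintegral_ofReal iw (Eventually.of_forall hw0)]
    exact lintegral_congr fun z => (hwG z).symm
  have hM0 : 0 < M := by
    have : ENNReal.ofReal M ≠ 0 := by rw [← hM1, hGi]; exact h0
    exact ENNReal.ofReal_pos.1 (pos_iff_ne_zero.2 this)
  have i2 : Integrable fun z => (1 + ‖z‖ ^ 2) * w z := by
    refine (iw.const_mul (1 + 2 * B ^ 2)).mono'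
      (Measurable.mul (by fun_prop) hwm).aestronglyMeasurable (Eventually.of_forall fun z => ?_)
    rw [Real.norm_eq_abs, abs_of_nonneg (mul_nonneg (by positivity) (hw0 z))]
    by_cases hz : w z = 0
    · rw [hz, mul_zero, mul_zero]
    · refine mul_le_mul_of_nonneg_right ?_ (hw0 z)
      have hz1 : G z ≠ 0 := by
        intro h; apply hz; rw [hw]; simp [h]
      have hz2 : ¬ (B < ‖tz z‖ ∨ B < |z 0|) := by
        intro h; apply hz1; rw [hG]; exact hB _ _ h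
      push Not at hz2
      have e1 : ‖z‖ ^ 2 = z 0 ^ 2 + ‖tz z‖ ^ 2 := by
        rw [EuclideanSpace.norm_sq_eq, EuclideanSpace.norm_sq_eq, Fin.sum_univ_succ]
        simp [tz]
      have e2 : z 0 ^ 2 ≤ B ^ 2 := by
        rw [← sq_abs]; exact pow_le_pow_left₀ (abs_nonneg _) hz2.2 2
      have e3 : ‖tz z‖ ^ 2 ≤ B ^ 2 := pow_le_pow_left₀ (norm_nonneg _) hz2.1 2
      linarith
  obtain ⟨A, hA⟩ := H.iso (d + 1) w hw0 hwm i2 (hM ▸ hM0)
  obtain ⟨μ, κ, hκ, hκ1, hI⟩ := ilk_of K w hw0 hwm i2 (hM ▸ hM0) hwl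
    (H.m4 (d + 1) w hw0 hwm i2 (hM ▸ hM0) hwl) A hA
  rw [← hM] at hκ1
  obtain ⟨-, hbd, -⟩ := hldk _ hI
  have hub : ∀ z, G z ≤ ENNReal.ofReal (C1 / κ) := by
    intro z
    have h3 := hbd (A z - μ)
    unfold gd at h3
    rw [sub_add_cancel, A.symm_apply_apply] at h3
    rw [← hwG]
    refine ENNReal.ofReal_le_ofReal ?_
    rw [le_div_iff₀ hκ, mul_comm]
    exact (ENNReal.ofReal_le_ofReal_iff hC1.le).1 h3
  -- the direction of the fibre
  obtain ⟨e0, he0⟩ : ∃ e0 : Eu (Fin (d + 1)), e0 = EuclideanSpace.single 0 (1 : ℝ) := ⟨_, rfl⟩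
  have he1 : e0 ≠ 0 := by
    rw [he0]
    intro h
    have := congrArg (fun z : Eu (Fin (d + 1)) => z 0) h
    simp at this
  obtain ⟨ρ, hρ⟩ : ∃ ρ : ℝ, ρ = ‖A e0‖ := ⟨_, rfl⟩
  have hρ0 : 0 < ρ := by
    rw [hρ, norm_pos_iff]
    intro h
    exact he1 ((map_eq_zero_iff A A.injective).1 h)
  obtain ⟨u, hu⟩ : ∃ u : Eu (Fin (d + 1)), u = ρ⁻¹ • A e0 := ⟨_, rfl⟩
  have hu1 : ‖u‖ = 1 := by
    rw [hu, norm_smul, ← hρ, Real.norm_eq_abs, abs_of_pos (inv_pos.2 hρ0), inv_mul_cancel₀ hρ0.ne']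
  obtain ⟨φ, hφ⟩ : ∃ φ : ℝ≥0∞, φ = ∫⁻ v, g ts v := ⟨_, rfl⟩
  -- integrals along the lines
  have hline : ∀ z, ∫⁻ τ : ℝ, G (z + τ • e0) ≤ φ := by
    intro z
    have e1 : ∀ τ : ℝ, G (z + τ • e0) = g (tz z) (z 0 + τ) := by
      intro τ
      rw [hG, he0]
      have q1 : tz (z + τ • EuclideanSpace.single 0 (1 : ℝ)) = tz z := by
        unfold tz
        ext i
        simp
      have q2 : (z + τ • EuclideanSpace.single (0 : Fin (d + 1)) (1 : ℝ)) 0 = z 0 + τ := by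
        simp
      show g (tz (z + τ • EuclideanSpace.single 0 (1 : ℝ)))
        ((z + τ • EuclideanSpace.single (0 : Fin (d + 1)) (1 : ℝ)) 0) = _
      rw [q1, q2]
    simp_rw [e1]
    rw [lintegral_add_left_eq_self (fun v => g (tz z) v) (z 0), hφ]
    exact hmax _
  have hline2 : ∀ y, ∫⁻ s : ℝ, gd A μ κ w (y + s • u) ≤ ENNReal.ofReal (κ * ρ) * φ := by
    intro y
    have e1 : ∀ s : ℝ, gd A μ κ w (y + s • u) =
        ENNReal.ofReal κ * G (A.symm (y + μ) + (s / ρ) • e0) := by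
      intro s
      unfold gd
      have e2 : A.symm (y + s • u + μ) = A.symm (y + μ) + (s / ρ) • e0 := by
        rw [hu]
        have : y + s • (ρ⁻¹ • A e0) + μ = (y + μ) + (s / ρ) • A e0 := by
          rw [div_eq_mul_inv, mul_smul]; abel
        rw [this, map_add, map_smul, A.symm_apply_apply]
      rw [e2, ENNReal.ofReal_mul hκ.le, hwG]
    simp_rw [e1]
    have m1 : Measurable fun τ : ℝ => G (A.symm (y + μ) + τ • e0) := hGm.comp (by fun_prop)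
    have m2 : Measurable fun s : ℝ => G (A.symm (y + μ) + (s / ρ) • e0) := hGm.comp (by fun_prop)
    rw [lintegral_const_mul _ m2, scl _ m1 ρ hρ0, ← mul_assoc, ← ENNReal.ofReal_mul hκ.le]
    exact mul_le_mul_right (hline _) _
  have hlow : ENNReal.ofReal (r / 2) ≤ ENNReal.ofReal (V * (κ * ρ)) * φ := by
    have h3 := line_bd (gd A μ κ w) hI.meas u hu1 r _ hline2
    rw [hV1, ← mul_assoc, ← ENNReal.ofReal_mul hV0.le] at h3
    refine le_trans ?_ h3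
    have h4 := cheb K _ hI
    rw [← hr] at h4
    calc ENNReal.ofReal (r / 2) = ENNReal.ofReal r * ENNReal.ofReal (1 / 2) := by
          rw [← ENNReal.ofReal_mul hr0.le]; congr 1; ring
      _ ≤ _ := mul_le_mul_right h4 _
  have hφ0 : φ ≠ 0 := by
    intro h
    rw [h, mul_zero] at hlow
    exact absurd hlow (not_le.2 (ENNReal.ofReal_pos.2 (by positivity)))
  have hφt : φ ≠ ⊤ := hφ ▸ h2
  obtain ⟨f, hf⟩ : ∃ f : ℝ, f = φ.toReal := ⟨_, rfl⟩
  have hfφ : φ = ENNReal.ofReal f := by rw [hf, ENNReal.ofReal_toReal hφt]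
  have hf0 : 0 < f := by rw [hf]; exact ENNReal.toReal_pos hφ0 hφt
  have hlow2 : r / 2 ≤ V * (κ * ρ) * f := by
    rw [hfφ, ← ENNReal.ofReal_mul (by positivity), ENNReal.ofReal_le_ofReal_iff (by positivity)]
      at hlow
    exact hlow
  -- the normalised density on the fibre
  have htsm : Measurable fun v => g ts v := hgm.comp (by fun_prop : Measurable fun v : ℝ => (ts, v))
  obtain ⟨P, hP⟩ : ∃ P : ℝ → ℝ≥0∞, P = fun v => ENNReal.ofReal f⁻¹ * g ts v := ⟨_, rfl⟩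
  have hPm : Measurable P := by rw [hP]; exact htsm.const_mul _
  have hgts : ∀ v, g ts v ≤ ENNReal.ofReal (C1 / κ) := by
    intro v
    have h3 := hub (WithLp.toLp 2 (Fin.cons v fun i => ts i))
    rw [hG] at h3
    have q1 : tz (WithLp.toLp 2 (Fin.cons v fun i => ts i) : Eu (Fin (d + 1))) = ts := by
      unfold tz
      ext i
      simp
    have q2 : (WithLp.toLp 2 (Fin.cons v fun i => ts i) : Eu (Fin (d + 1))) 0 = v := by
      simp
    have h4 : g (tz (WithLp.toLp 2 (Fin.cons v fun i => ts i) : Eu (Fin (d + 1))))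
      ((WithLp.toLp 2 (Fin.cons v fun i => ts i) : Eu (Fin (d + 1))) 0) ≤
        ENNReal.ofReal (C1 / κ) := h3
    rw [q1, q2] at h4
    exact h4
  have hPC : ∀ v, P v ≤ ENNReal.ofReal (C2 * ρ) := by
    intro v
    rw [hP]
    calc ENNReal.ofReal f⁻¹ * g ts v ≤ ENNReal.ofReal f⁻¹ * ENNReal.ofReal (C1 / κ) :=
          mul_le_mul_right (hgts v) _
      _ = ENNReal.ofReal (f⁻¹ * (C1 / κ)) := (ENNReal.ofReal_mul (by positivity)).symm
      _ ≤ ENNReal.ofReal (C2 * ρ) := by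
          refine ENNReal.ofReal_le_ofReal ?_
          rw [hC2, inv_mul_eq_div, div_div, div_mul_eq_mul_div, div_le_div_iff₀ (by positivity) hr0]
          nlinarith [mul_le_mul_of_nonneg_left hlow2 hC1.le]
  have hP1 : ∫⁻ v, P v = 1 := by
    rw [hP, lintegral_const_mul _ htsm, ← hφ, hfφ, ← ENNReal.ofReal_mul (by positivity),
      inv_mul_cancel₀ hf0.ne', ENNReal.ofReal_one]
  have hvar := Pool.Agent.R834.OR.low_of_bd P hPm (C2 * ρ) (by positivity) hPC hP1 a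
  have hX : ENNReal.ofReal (f * (1 / (32 * (C2 * ρ) ^ 2))) ≤
      ∫⁻ v, ENNReal.ofReal ((v - a) ^ 2) * g ts v := by
    have e1 : ∫⁻ v, ENNReal.ofReal ((v - a) ^ 2) * g ts v =
        ENNReal.ofReal f * ∫⁻ v, ENNReal.ofReal ((v - a) ^ 2) * P v := by
      have m1 : Measurable fun v => ENNReal.ofReal ((v - a) ^ 2) * P v :=
        Measurable.mul (by fun_prop) hPm
      rw [← lintegral_const_mul _ m1]
      refine lintegral_congr fun v => ?_
      rw [hP]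
      have : ENNReal.ofReal f * ENNReal.ofReal f⁻¹ = 1 := by
        rw [← ENNReal.ofReal_mul hf0.le, mul_inv_cancel₀ hf0.ne', ENNReal.ofReal_one]
      calc ENNReal.ofReal ((v - a) ^ 2) * g ts v
          = (ENNReal.ofReal f * ENNReal.ofReal f⁻¹) * (ENNReal.ofReal ((v - a) ^ 2) * g ts v) := by
            rw [this, one_mul]
        _ = _ := by ring
    rw [e1, ENNReal.ofReal_mul hf0.le]
    exact mul_le_mul_right hvar _
  -- the regression
  obtain ⟨q, hq⟩ : ∃ q : Eu (Fin (d + 1)),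
    q = ContinuousLinearMap.adjoint (A : Eu (Fin (d + 1)) →L[ℝ] Eu (Fin (d + 1))) u := ⟨_, rfl⟩
  have hq1 : ∀ z, ⟪q, z⟫_ℝ = ⟪u, A z⟫_ℝ := by
    intro z
    rw [hq, ContinuousLinearMap.adjoint_inner_left]
    rfl
  have hq2 : ∀ z : Eu (Fin (d + 1)), ⟪q, z⟫_ℝ = q 0 * z 0 + ⟪tz q, tz z⟫_ℝ := by
    intro z
    rw [PiLp.inner_apply, PiLp.inner_apply, Fin.sum_univ_succ]
    simp [tz, mul_comm]
  have hq3 : q 0 = ρ := by
    have h3 := hq1 e0
    have h4 : ⟪q, e0⟫_ℝ = q 0 := by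
      rw [he0, EuclideanSpace.inner_single_right]; simp
    rw [h4, hu, real_inner_smul_left, real_inner_self_eq_norm_sq, ← hρ] at h3
    rw [h3]; field_simp
  refine ⟨-(ρ⁻¹ • tz q), ⟪u, μ⟫_ℝ / ρ, ?_⟩
  have hlhs : ∫⁻ t, ∫⁻ v, ENNReal.ofReal ((v - ⟪-(ρ⁻¹ • tz q), t⟫_ℝ - ⟪u, μ⟫_ℝ / ρ) ^ 2) * g t v =
      ENNReal.ofReal (1 / ρ ^ 2 * M) := by
    have m1 : Measurable fun p : Eu (Fin d) × ℝ =>
        ENNReal.ofReal ((p.2 - ⟪-(ρ⁻¹ • tz q), p.1⟫_ℝ - ⟪u, μ⟫_ℝ / ρ) ^ 2) * g p.1 p.2 :=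
      Measurable.mul (by fun_prop) hgm
    rw [← fub (fun t v =>
      ENNReal.ofReal ((v - ⟪-(ρ⁻¹ • tz q), t⟫_ℝ - ⟪u, μ⟫_ℝ / ρ) ^ 2) * g t v) m1]
    have e1 : ∀ z : Eu (Fin (d + 1)),
        ENNReal.ofReal ((z 0 - ⟪-(ρ⁻¹ • tz q), tz z⟫_ℝ - ⟪u, μ⟫_ℝ / ρ) ^ 2) * g (tz z) (z 0) =
        ENNReal.ofReal (1 / ρ ^ 2) * (ENNReal.ofReal (⟪u, A z - μ⟫_ℝ ^ 2) *
          ENNReal.ofReal (w z)) := by
      intro z
      have e2 : z 0 - ⟪-(ρ⁻¹ • tz q), tz z⟫_ℝ - ⟪u, μ⟫_ℝ / ρ = ρ⁻¹ * ⟪u, A z - μ⟫_ℝ := by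
        rw [inner_sub_right, ← hq1, hq2, hq3, inner_neg_left, real_inner_smul_left]
        field_simp
        ring
      rw [e2, hwG, ← mul_assoc, ← ENNReal.ofReal_mul (by positivity), hG]
      congr 2
      rw [mul_pow, inv_pow, one_div]
    simp_rw [e1]
    have m2 : Measurable fun z => ENNReal.ofReal (⟪u, A z - μ⟫_ℝ ^ 2) * ENNReal.ofReal (w z) :=
      Measurable.mul (by fun_prop) hwm.ennreal_ofReal
    rw [lintegral_const_mul _ m2]
    have e3 := gd_int A μ κ hκ w hwm (fun z => ENNReal.ofReal (⟪u, z⟫_ℝ ^ 2)) (by fun_prop)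
    rw [hI.m2 u, hu1] at e3
    have e4 : ∫⁻ z, ENNReal.ofReal (⟪u, A z - μ⟫_ℝ ^ 2) * ENNReal.ofReal (w z) =
        ENNReal.ofReal M := by
      have e5 : κ * dt A = M⁻¹ := eq_inv_of_mul_eq_one_left hκ1
      rw [e5] at e3
      calc ∫⁻ z, ENNReal.ofReal (⟪u, A z - μ⟫_ℝ ^ 2) * ENNReal.ofReal (w z)
          = ENNReal.ofReal M * (ENNReal.ofReal M⁻¹ *
            ∫⁻ z, ENNReal.ofReal (⟪u, A z - μ⟫_ℝ ^ 2) * ENNReal.ofReal (w z)) := by
            rw [← mul_assoc, ← ENNReal.ofReal_mul hM0.le, mul_inv_cancel₀ hM0.ne',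
              ENNReal.ofReal_one, one_mul]
        _ = ENNReal.ofReal M := by
            rw [← e3]; simp
    rw [e4, ← ENNReal.ofReal_mul (by positivity)]
  have hfin : (∫⁻ t, ∫⁻ v, ENNReal.ofReal ((v - ⟪-(ρ⁻¹ • tz q), t⟫_ℝ - ⟪u, μ⟫_ℝ / ρ) ^ 2) * g t v) *
      ∫⁻ v, g ts v ≤ ENNReal.ofReal (32 * C2 ^ 2) *
      (∫⁻ v, ENNReal.ofReal ((v - a) ^ 2) * g ts v) * ∫⁻ t, ∫⁻ v, g t v := by
    rw [hlhs, ← hφ, hfφ, ← hGi, hM1, ← ENNReal.ofReal_mul (by positivity)]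
    calc ENNReal.ofReal (1 / ρ ^ 2 * M * f)
        = ENNReal.ofReal (32 * C2 ^ 2) * ENNReal.ofReal (f * (1 / (32 * (C2 * ρ) ^ 2))) *
          ENNReal.ofReal M := by
          rw [← ENNReal.ofReal_mul (by positivity), ← ENNReal.ofReal_mul (by positivity)]
          congr 1
          field_simp
      _ ≤ _ := mul_le_mul_left (mul_le_mul_right hX _) _
  exact hfin

end Pool.Agent.N232.KM
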